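import Mathlib

namespace Pool.Agent.Results.MP_407f73_al.Dual

/-- action of a state on words, for transition map d and output map o -/
def run {Q A : Type} (d : Q → A → Q) (o : Q → A → A) : Q → List A → List A
  | _, [] => []
  | q, a :: w => o q a :: run d o (d q a) w

/-- action of a word of states: composition of the maps of its letters -/
def runs {Q A : Type} (d : Q → A → Q) (o : Q → A → A) (s : List Q) (w : List A) : List A :=
  s.foldr (run d o) w

def d : Fin 5 → Bool × Bool → Fin 5 := fun q x =>
  if q = 1 then (if x.1 then 1 else 0) else if q = 2 then (if x.1 then 0 else 2)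
  else if q = 3 then (if x.2 then 4 else 0) else 0

def o : Fin 5 → Bool × Bool → Bool × Bool := fun q x =>
  if q = 1 then (!x.1, x.2) else if q = 2 then (x.1, xor x.1 x.2)
  else if q = 4 then (x.1, !x.2) else x

lemma run0 (w : List (Bool × Bool)) : run d o 0 w = w := by
  induction w with
  | nil => rfl
  | cons x w ih => simp [run, d, o, ih]

def R (u v : List (Bool × Bool)) : Prop := ∃ s, runs d o s u = v

lemma R.trans {u v w} (h : R u v) (h' : R v w) : R u w := by
  obtain ⟨s, rfl⟩ := h
  obtain ⟨t, rfl⟩ := h'
  exact ⟨t ++ s, by simp [runs]⟩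

lemma R.one (q : Fin 5) (u) : R u (run d o q u) := ⟨[q], rfl⟩

lemma R.iter (k : ℕ) (u) : R u ((run d o 1)^[k] u) := by
  induction k with
  | zero => exact ⟨[], rfl⟩
  | succ k ih => rw [Function.iterate_succ_apply']; exact ih.trans (R.one _ _)

lemma snd1 (u : List (Bool × Bool)) : (run d o 1 u).map Prod.snd = u.map Prod.snd := by
  induction u with
  | nil => rfl
  | cons x u ih => obtain ⟨_ | _, z⟩ := x <;> simp [run, d, o, ih, run0]

lemma odo : ∀ v u : List (Bool × Bool), u.map Prod.snd = v.map Prod.snd →
    ∃ k, (run d o 1)^[k] u = v := by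
  intro v
  induction v with
  | nil => intro u h; exact ⟨0, by simpa using h⟩
  | cons y v ih =>
    intro u h
    obtain ⟨b', z'⟩ := y
    rcases u with _ | ⟨⟨b, z⟩, u⟩
    · simp at h
    simp only [List.map_cons, List.cons.injEq] at h
    obtain ⟨rfl, h⟩ := h
    have e : ∀ k c t, (run d o 1)^[2 * k] ((c, z) :: t) = (c, z) :: (run d o 1)^[k] t := by
      intro k
      induction k with
      | zero => intro c t; rfl
      | succ k ih =>
        intro c t
        rw [show 2 * (k + 1) = 2 * k + 1 + 1 by ring, Function.iterate_succ_apply,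
          Function.iterate_succ_apply, Function.iterate_succ_apply, ← ih]
        cases c <;> simp [run, d, o, run0]
    by_cases hb : b = b'
    · obtain ⟨k, hk⟩ := ih u h
      exact ⟨2 * k, by rw [e, hk, hb]⟩
    · cases b <;> cases b' <;> simp at hb
      · obtain ⟨k, hk⟩ := ih u h
        exact ⟨2 * k + 1, by simp [Function.iterate_succ_apply, run, d, o, run0, e, hk]⟩
      · obtain ⟨k, hk⟩ := ih (run d o 1 u) ((snd1 u).trans h)
        refine ⟨2 * k + 1, ?_⟩
        rw [Function.iterate_succ_apply]
        have : run d o 1 ((true, z) :: u) = (false, z) :: run d o 1 u := by simp [run, d, o]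
        rw [this, e, hk]

lemma R.odo {u v : List (Bool × Bool)} (h : u.map Prod.snd = v.map Prod.snd) : R u v := by
  obtain ⟨k, rfl⟩ := Dual.odo v u h
  exact R.iter k u

lemma run2 (p : List Bool) (z : Bool) (t : List (Bool × Bool)) :
    run d o 2 (p.map (fun c => (false, c)) ++ (true, z) :: t)
      = p.map (fun c => (false, c)) ++ (true, !z) :: t := by
  induction p with
  | nil => simp [run, d, o, run0]
  | cons c p ih => simpa [run, d, o] using ih

lemma flip (p t : List (Bool × Bool)) (b z : Bool) :
    R (p ++ (b, z) :: t) (p ++ (b, !z) :: t) := by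
  have h1 : R (p ++ (b, z) :: t) ((p.map Prod.snd).map (fun c => (false, c)) ++ (true, z) :: t) :=
    R.odo (by simp [Function.comp_def])
  have h2 := R.one 2 ((p.map Prod.snd).map (fun c => (false, c)) ++ (true, z) :: t)
  rw [run2] at h2
  exact (h1.trans h2).trans (R.odo (by simp [Function.comp_def]))

lemma allR : ∀ (v u p : List (Bool × Bool)), u.length = v.length → R (p ++ u) (p ++ v) := by
  intro v
  induction v with
  | nil => intro u p h; rw [List.length_eq_zero_iff.mp h]; exact ⟨[], rfl⟩
  | cons y v ih =>
    intro u p h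
    rcases u with _ | ⟨⟨b, z⟩, u⟩
    · simp at h
    obtain ⟨b', z'⟩ := y
    have h1 : R (p ++ (b, z) :: u) (p ++ (b, z) :: v) := by
      simpa using ih u (p ++ [(b, z)]) (by simpa using h)
    have h2 : R (p ++ (b, z) :: v) (p ++ (b, z') :: v) := by
      by_cases hz : z = z'
      · rw [hz]; exact ⟨[], rfl⟩
      · have : z' = !z := by cases z <;> cases z' <;> simp_all
        rw [this]; exact flip _ _ _ _
    exact (h1.trans h2).trans (R.odo (by simp))

lemma dual2 (s : List (Fin 5)) : ∀ x y x' y' : Bool × Bool, x.1 = x'.1 → y.1 = y'.1 →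
    run (fun a q => o q a) (fun a q => d q a) y (run (fun a q => o q a) (fun a q => d q a) x s) =
    run (fun a q => o q a) (fun a q => d q a) y' (run (fun a q => o q a) (fun a q => d q a) x' s) := by
  induction s with
  | nil => intros; rfl
  | cons q s ih =>
    intro x y x' y' hx hy
    simp only [run, List.cons.injEq]
    refine ⟨?_, ih _ _ _ _ ?_ ?_⟩
    · revert hx hy; revert x y x' y' q; decide
    · revert hx; revert x x' q; decide
    · revert hx hy; revert x y x' y' q; decide

theorem result : ∃ (Q A : Type) (_ : Fintype Q) (_ : Fintype A) (d : Q → A → Q) (o : Q → A → A),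
    Nonempty Q ∧ 2 ≤ Fintype.card A ∧ (∀ q, Function.Bijective (o q)) ∧
    (∀ u v : List A, u.length = v.length → ∃ s : List Q, s ≠ [] ∧ runs d o s u = v) ∧
    (∃ u v : List A, u ≠ [] ∧ v ≠ [] ∧ u ≠ v ∧
      runs (fun a q => o q a) (fun a q => d q a) u = runs (fun a q => o q a) (fun a q => d q a) v) ∧
    (∃ a b : A,
      runs (fun a q => o q a) (fun a q => d q a) [a] ≠ runs (fun a q => o q a) (fun a q => d q a) [b] ∧
      runs (fun a q => o q a) (fun a q => d q a) [a, a] =
        runs (fun a q => o q a) (fun a q => d q a) [a, b]) := by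
  have key : runs (fun a q => o q a) (fun a q => d q a) [(false, false), (false, false)] =
      runs (fun a q => o q a) (fun a q => d q a) [(false, false), (false, true)] := by
    funext s
    exact dual2 s _ _ _ _ rfl rfl
  refine ⟨Fin 5, Bool × Bool, inferInstance, inferInstance, d, o, inferInstance, by simp,
    by decide, ?_, ⟨_, _, by simp, by simp, by simp, key⟩, (false, false), (false, true), ?_, key⟩
  · intro u v h
    obtain ⟨s, hs⟩ := allR v u [] h
    refine ⟨0 :: s, by simp, ?_⟩
    simp only [List.nil_append] at hs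
    rw [← hs]
    simp [runs, run0]
  · intro h
    have := congrFun h [3]
    revert this
    decide

end Pool.Agent.Results.MP_407f73_al.Dual
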